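import Mathlib
import Pool.Agent.Lib.helper7.Merge

namespace Pool.Agent.Results.MP_daa8b9_co.NotDivisible

open Pool.Agent.Lib.Helper7Merge

/-- The two half-edges (darts) of edge `e` are `(e, false)` and `(e, true)`; `opp` swaps them. -/
def opp {m : ℕ} (x : Fin m × Bool) : Fin m × Bool := (x.1, !x.2)

/-- Number of classes of the equivalence relation generated by `r`. -/
noncomputable def classes {D : Type} (r : D → D → Prop) : ℕ := Nat.card (Quot r)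

/-- A rotation system `σ` (the cyclic order of darts round each vertex) all of whose vertices
have degree three. -/
def IsCubic {m : ℕ} (σ : Equiv.Perm (Fin m × Bool)) : Prop := ∀ x, σ x ≠ x ∧ σ (σ (σ x)) = x

/-- No edge has both its darts at one vertex. -/
def Loopless {m : ℕ} (σ : Equiv.Perm (Fin m × Bool)) : Prop := ∀ x, ¬ σ.SameCycle x (opp x)

/-- The underlying graph is connected. -/
def IsConnectedMap {m : ℕ} (σ : Equiv.Perm (Fin m × Bool)) : Prop :=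
  classes (fun x y : Fin m × Bool => y = σ x ∨ y = opp x) = 1

/-- Euler's relation `V - E + F = 2`: vertices are the cycles of `σ`, faces those of `σ ∘ opp`. -/
def IsPlaneMap {m : ℕ} (σ : Equiv.Perm (Fin m × Bool)) : Prop :=
  classes (fun x y : Fin m × Bool => y = σ x) +
    classes (fun x y : Fin m × Bool => y = σ (opp x)) = m + 2

/-- The number of 3-edge-colourings. -/
noncomputable def edgeColourings {m : ℕ} (σ : Equiv.Perm (Fin m × Bool)) : ℕ :=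
  Nat.card {c : Fin m → Fin 3 // ∀ x y, σ.SameCycle x y → x.1 ≠ y.1 → c x.1 ≠ c y.1}

/-- The number of closed curves of the Penrose state that crosses exactly at the edges in `X`.
The dart `x` names the medial edge joining the edges of `x` and of `σ x`. -/
noncomputable def curves {m : ℕ} (σ : Equiv.Perm (Fin m × Bool)) (X : Finset (Fin m)) : ℕ :=
  classes (fun x y : Fin m × Bool => ∃ d : Fin m × Bool,
    (d.1 ∉ X ∧ x = σ.symm d ∧ y = opp d) ∨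
    (d.1 ∈ X ∧ ((x = σ.symm d ∧ y = σ.symm (opp d)) ∨ (x = d ∧ y = opp d))))

/-- The Penrose polynomial evaluated at an integer. -/
noncomputable def penrose {m : ℕ} (σ : Equiv.Perm (Fin m × Bool)) (t : ℤ) : ℤ :=
  ∑ X : Finset (Fin m), (-1) ^ X.card * t ^ curves σ X

def enc (x : Fin 24 × Bool) : ℕ := 2 * x.1.val + (if x.2 then 1 else 0)
def dec (n : ℕ) : Fin 24 × Bool := (⟨n / 2 % 24, Nat.mod_lt _ (by norm_num)⟩, n % 2 == 1)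
def nxtL : List ℕ := [4, 13, 6, 0, 3, 27, 11, 8, 15, 5, 16, 2, 10, 22, 24, 7, 12, 19, 14, 20, 17, 32, 1, 41, 18, 28, 44, 9, 31, 26, 36, 25, 34, 30, 21, 39, 33, 43, 37, 40, 35, 47, 45, 38, 29, 46, 42, 23]
def prvL : List ℕ := [3, 22, 11, 4, 0, 9, 2, 15, 7, 27, 12, 6, 16, 1, 18, 8, 10, 20, 24, 17, 19, 34, 13, 47, 14, 31, 29, 5, 25, 44, 33, 28, 21, 36, 32, 40, 30, 38, 43, 35, 39, 23, 46, 37, 26, 42, 45, 41]
def nuL : List ℕ := [2, 9, 3, 0, 1, 23, 7, 5, 10, 4, 13, 6, 8, 18, 21, 11, 12, 14, 15, 16, 17, 29, 19, 38, 20, 24, 41, 22, 26, 25, 33, 27, 30, 28, 31, 35, 32, 40, 34, 37, 36, 44, 42, 39, 43, 45, 46, 47]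
def deadL : List ℕ := [0, 1, 3, 4, 6, 8, 10, 12, 14, 16, 18, 20, 22, 24, 26, 28, 30, 32, 34, 36, 39, 41, 44, 48]
def colL : List (List (Fin 3)) := [[0, 1, 2, 0, 1, 2, 1, 2, 0, 1, 2, 2, 0, 0, 1, 2, 0, 1, 1, 2, 0, 0, 2, 1],
  [0, 1, 2, 0, 1, 2, 1, 2, 0, 1, 2, 2, 0, 0, 1, 2, 1, 0, 0, 2, 1, 1, 2, 0],
  [0, 1, 2, 2, 0, 0, 1, 1, 2, 0, 1, 2, 2, 1, 0, 1, 0, 2, 2, 0, 1, 1, 2, 0],
  [0, 1, 2, 2, 0, 0, 1, 1, 2, 0, 1, 2, 2, 1, 0, 1, 0, 2, 2, 1, 0, 0, 2, 1],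
  [0, 1, 2, 2, 0, 0, 1, 1, 2, 0, 1, 2, 2, 1, 0, 1, 2, 0, 0, 2, 1, 1, 2, 0],
  [0, 1, 2, 2, 0, 0, 2, 1, 1, 0, 2, 1, 2, 1, 0, 1, 0, 1, 2, 0, 2, 1, 2, 0],
  [0, 1, 2, 2, 0, 0, 2, 1, 1, 2, 0, 1, 0, 1, 2, 1, 2, 1, 0, 2, 0, 1, 0, 2],
  [0, 1, 2, 2, 1, 0, 1, 0, 2, 1, 0, 2, 2, 0, 1, 0, 1, 2, 2, 0, 1, 1, 2, 0],
  [0, 1, 2, 2, 1, 0, 1, 0, 2, 1, 0, 2, 2, 0, 1, 0, 1, 2, 2, 1, 0, 0, 2, 1],
  [0, 1, 2, 2, 1, 0, 1, 0, 2, 1, 0, 2, 2, 0, 1, 0, 2, 1, 1, 2, 0, 0, 2, 1],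
  [0, 1, 2, 2, 1, 0, 2, 0, 1, 2, 0, 1, 1, 0, 2, 0, 1, 2, 2, 1, 0, 0, 1, 2],
  [0, 1, 2, 2, 1, 0, 2, 0, 1, 2, 0, 1, 1, 0, 2, 0, 2, 1, 1, 0, 2, 2, 1, 0],
  [0, 1, 2, 2, 1, 0, 2, 0, 1, 2, 0, 1, 1, 0, 2, 0, 2, 1, 1, 2, 0, 0, 1, 2],
  [0, 2, 1, 0, 2, 1, 2, 1, 0, 2, 1, 1, 0, 0, 2, 1, 0, 2, 2, 1, 0, 0, 1, 2],
  [0, 2, 1, 0, 2, 1, 2, 1, 0, 2, 1, 1, 0, 0, 2, 1, 2, 0, 0, 1, 2, 2, 1, 0],
  [0, 2, 1, 1, 0, 0, 1, 2, 2, 0, 1, 2, 1, 2, 0, 2, 0, 2, 1, 0, 1, 2, 1, 0],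
  [0, 2, 1, 1, 0, 0, 1, 2, 2, 1, 0, 2, 0, 2, 1, 2, 1, 2, 0, 1, 0, 2, 0, 1],
  [0, 2, 1, 1, 0, 0, 2, 2, 1, 0, 2, 1, 1, 2, 0, 2, 0, 1, 1, 0, 2, 2, 1, 0],
  [0, 2, 1, 1, 0, 0, 2, 2, 1, 0, 2, 1, 1, 2, 0, 2, 0, 1, 1, 2, 0, 0, 1, 2],
  [0, 2, 1, 1, 0, 0, 2, 2, 1, 0, 2, 1, 1, 2, 0, 2, 1, 0, 0, 1, 2, 2, 1, 0],
  [0, 2, 1, 1, 2, 0, 1, 0, 2, 1, 0, 2, 2, 0, 1, 0, 1, 2, 2, 0, 1, 1, 2, 0],
  [0, 2, 1, 1, 2, 0, 1, 0, 2, 1, 0, 2, 2, 0, 1, 0, 1, 2, 2, 1, 0, 0, 2, 1],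
  [0, 2, 1, 1, 2, 0, 1, 0, 2, 1, 0, 2, 2, 0, 1, 0, 2, 1, 1, 2, 0, 0, 2, 1],
  [0, 2, 1, 1, 2, 0, 2, 0, 1, 2, 0, 1, 1, 0, 2, 0, 1, 2, 2, 1, 0, 0, 1, 2],
  [0, 2, 1, 1, 2, 0, 2, 0, 1, 2, 0, 1, 1, 0, 2, 0, 2, 1, 1, 0, 2, 2, 1, 0],
  [0, 2, 1, 1, 2, 0, 2, 0, 1, 2, 0, 1, 1, 0, 2, 0, 2, 1, 1, 2, 0, 0, 1, 2],
  [1, 0, 2, 1, 0, 2, 0, 2, 1, 0, 2, 2, 1, 1, 0, 2, 0, 1, 1, 2, 0, 0, 2, 1],
  [1, 0, 2, 1, 0, 2, 0, 2, 1, 0, 2, 2, 1, 1, 0, 2, 1, 0, 0, 2, 1, 1, 2, 0],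
  [1, 0, 2, 2, 0, 1, 0, 1, 2, 0, 1, 2, 2, 1, 0, 1, 0, 2, 2, 0, 1, 1, 2, 0],
  [1, 0, 2, 2, 0, 1, 0, 1, 2, 0, 1, 2, 2, 1, 0, 1, 0, 2, 2, 1, 0, 0, 2, 1],
  [1, 0, 2, 2, 0, 1, 0, 1, 2, 0, 1, 2, 2, 1, 0, 1, 2, 0, 0, 2, 1, 1, 2, 0],
  [1, 0, 2, 2, 0, 1, 2, 1, 0, 2, 1, 0, 0, 1, 2, 1, 0, 2, 2, 0, 1, 1, 0, 2],
  [1, 0, 2, 2, 0, 1, 2, 1, 0, 2, 1, 0, 0, 1, 2, 1, 2, 0, 0, 1, 2, 2, 0, 1],
  [1, 0, 2, 2, 0, 1, 2, 1, 0, 2, 1, 0, 0, 1, 2, 1, 2, 0, 0, 2, 1, 1, 0, 2],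
  [1, 0, 2, 2, 1, 1, 0, 0, 2, 1, 0, 2, 2, 0, 1, 0, 1, 2, 2, 0, 1, 1, 2, 0],
  [1, 0, 2, 2, 1, 1, 0, 0, 2, 1, 0, 2, 2, 0, 1, 0, 1, 2, 2, 1, 0, 0, 2, 1],
  [1, 0, 2, 2, 1, 1, 0, 0, 2, 1, 0, 2, 2, 0, 1, 0, 2, 1, 1, 2, 0, 0, 2, 1],
  [1, 0, 2, 2, 1, 1, 2, 0, 0, 1, 2, 0, 2, 0, 1, 0, 1, 0, 2, 1, 2, 0, 2, 1],
  [1, 0, 2, 2, 1, 1, 2, 0, 0, 2, 1, 0, 1, 0, 2, 0, 2, 0, 1, 2, 1, 0, 1, 2],
  [1, 2, 0, 0, 1, 1, 0, 2, 2, 0, 1, 2, 1, 2, 0, 2, 0, 2, 1, 0, 1, 2, 1, 0],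
  [1, 2, 0, 0, 1, 1, 0, 2, 2, 1, 0, 2, 0, 2, 1, 2, 1, 2, 0, 1, 0, 2, 0, 1],
  [1, 2, 0, 0, 1, 1, 2, 2, 0, 1, 2, 0, 0, 2, 1, 2, 0, 1, 1, 0, 2, 2, 0, 1],
  [1, 2, 0, 0, 1, 1, 2, 2, 0, 1, 2, 0, 0, 2, 1, 2, 1, 0, 0, 1, 2, 2, 0, 1],
  [1, 2, 0, 0, 1, 1, 2, 2, 0, 1, 2, 0, 0, 2, 1, 2, 1, 0, 0, 2, 1, 1, 0, 2],
  [1, 2, 0, 0, 2, 1, 0, 1, 2, 0, 1, 2, 2, 1, 0, 1, 0, 2, 2, 0, 1, 1, 2, 0],
  [1, 2, 0, 0, 2, 1, 0, 1, 2, 0, 1, 2, 2, 1, 0, 1, 0, 2, 2, 1, 0, 0, 2, 1],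
  [1, 2, 0, 0, 2, 1, 0, 1, 2, 0, 1, 2, 2, 1, 0, 1, 2, 0, 0, 2, 1, 1, 2, 0],
  [1, 2, 0, 0, 2, 1, 2, 1, 0, 2, 1, 0, 0, 1, 2, 1, 0, 2, 2, 0, 1, 1, 0, 2],
  [1, 2, 0, 0, 2, 1, 2, 1, 0, 2, 1, 0, 0, 1, 2, 1, 2, 0, 0, 1, 2, 2, 0, 1],
  [1, 2, 0, 0, 2, 1, 2, 1, 0, 2, 1, 0, 0, 1, 2, 1, 2, 0, 0, 2, 1, 1, 0, 2],
  [1, 2, 0, 1, 2, 0, 2, 0, 1, 2, 0, 0, 1, 1, 2, 0, 1, 2, 2, 0, 1, 1, 0, 2],
  [1, 2, 0, 1, 2, 0, 2, 0, 1, 2, 0, 0, 1, 1, 2, 0, 2, 1, 1, 0, 2, 2, 0, 1],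
  [2, 0, 1, 1, 0, 2, 0, 2, 1, 0, 2, 1, 1, 2, 0, 2, 0, 1, 1, 0, 2, 2, 1, 0],
  [2, 0, 1, 1, 0, 2, 0, 2, 1, 0, 2, 1, 1, 2, 0, 2, 0, 1, 1, 2, 0, 0, 1, 2],
  [2, 0, 1, 1, 0, 2, 0, 2, 1, 0, 2, 1, 1, 2, 0, 2, 1, 0, 0, 1, 2, 2, 1, 0],
  [2, 0, 1, 1, 0, 2, 1, 2, 0, 1, 2, 0, 0, 2, 1, 2, 0, 1, 1, 0, 2, 2, 0, 1],
  [2, 0, 1, 1, 0, 2, 1, 2, 0, 1, 2, 0, 0, 2, 1, 2, 1, 0, 0, 1, 2, 2, 0, 1],
  [2, 0, 1, 1, 0, 2, 1, 2, 0, 1, 2, 0, 0, 2, 1, 2, 1, 0, 0, 2, 1, 1, 0, 2],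
  [2, 0, 1, 1, 2, 2, 0, 0, 1, 2, 0, 1, 1, 0, 2, 0, 1, 2, 2, 1, 0, 0, 1, 2],
  [2, 0, 1, 1, 2, 2, 0, 0, 1, 2, 0, 1, 1, 0, 2, 0, 2, 1, 1, 0, 2, 2, 1, 0],
  [2, 0, 1, 1, 2, 2, 0, 0, 1, 2, 0, 1, 1, 0, 2, 0, 2, 1, 1, 2, 0, 0, 1, 2],
  [2, 0, 1, 1, 2, 2, 1, 0, 0, 1, 2, 0, 2, 0, 1, 0, 1, 0, 2, 1, 2, 0, 2, 1],
  [2, 0, 1, 1, 2, 2, 1, 0, 0, 2, 1, 0, 1, 0, 2, 0, 2, 0, 1, 2, 1, 0, 1, 2],
  [2, 0, 1, 2, 0, 1, 0, 1, 2, 0, 1, 1, 2, 2, 0, 1, 0, 2, 2, 1, 0, 0, 1, 2],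
  [2, 0, 1, 2, 0, 1, 0, 1, 2, 0, 1, 1, 2, 2, 0, 1, 2, 0, 0, 1, 2, 2, 1, 0],
  [2, 1, 0, 0, 1, 2, 0, 2, 1, 0, 2, 1, 1, 2, 0, 2, 0, 1, 1, 0, 2, 2, 1, 0],
  [2, 1, 0, 0, 1, 2, 0, 2, 1, 0, 2, 1, 1, 2, 0, 2, 0, 1, 1, 2, 0, 0, 1, 2],
  [2, 1, 0, 0, 1, 2, 0, 2, 1, 0, 2, 1, 1, 2, 0, 2, 1, 0, 0, 1, 2, 2, 1, 0],
  [2, 1, 0, 0, 1, 2, 1, 2, 0, 1, 2, 0, 0, 2, 1, 2, 0, 1, 1, 0, 2, 2, 0, 1],
  [2, 1, 0, 0, 1, 2, 1, 2, 0, 1, 2, 0, 0, 2, 1, 2, 1, 0, 0, 1, 2, 2, 0, 1],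
  [2, 1, 0, 0, 1, 2, 1, 2, 0, 1, 2, 0, 0, 2, 1, 2, 1, 0, 0, 2, 1, 1, 0, 2],
  [2, 1, 0, 0, 2, 2, 0, 1, 1, 0, 2, 1, 2, 1, 0, 1, 0, 1, 2, 0, 2, 1, 2, 0],
  [2, 1, 0, 0, 2, 2, 0, 1, 1, 2, 0, 1, 0, 1, 2, 1, 2, 1, 0, 2, 0, 1, 0, 2],
  [2, 1, 0, 0, 2, 2, 1, 1, 0, 2, 1, 0, 0, 1, 2, 1, 0, 2, 2, 0, 1, 1, 0, 2],
  [2, 1, 0, 0, 2, 2, 1, 1, 0, 2, 1, 0, 0, 1, 2, 1, 2, 0, 0, 1, 2, 2, 0, 1],
  [2, 1, 0, 0, 2, 2, 1, 1, 0, 2, 1, 0, 0, 1, 2, 1, 2, 0, 0, 2, 1, 1, 0, 2],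
  [2, 1, 0, 2, 1, 0, 1, 0, 2, 1, 0, 0, 2, 2, 1, 0, 1, 2, 2, 0, 1, 1, 0, 2],
  [2, 1, 0, 2, 1, 0, 1, 0, 2, 1, 0, 0, 2, 2, 1, 0, 2, 1, 1, 0, 2, 2, 0, 1]]

def sig : Equiv.Perm (Fin 24 × Bool) where
  toFun x := dec (nxtL.getD (enc x) 0)
  invFun x := dec (prvL.getD (enc x) 0)
  left_inv := by unfold Function.LeftInverse; decide +kernel
  right_inv := by unfold Function.RightInverse Function.LeftInverse; decide +kernel

def nu (x : Fin 24 × Bool) : ℕ := nuL.getD (enc x) 0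

theorem nu_inj : Function.Injective nu := by unfold Function.Injective; decide +kernel
theorem nu_lt : ∀ x, nu x < 48 := by decide +kernel

def darts : List (Fin 24 × Bool) := (List.range 48).map dec
theorem mem_darts : ∀ x, x ∈ darts := by decide +kernel

theorem cubic : IsCubic sig := by unfold IsCubic; decide +kernel

theorem sameCycle {x y : Fin 24 × Bool} (h : sig.SameCycle x y) :
    y = x ∨ y = sig x ∨ y = sig (sig x) := by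
  obtain ⟨i, -, rfl⟩ := h.exists_pow_eq'
  clear h
  induction i with
  | zero => left; rfl
  | succ i ih =>
    rw [pow_succ', Equiv.Perm.mul_apply]
    rcases ih with h | h | h <;> rw [h]
    · exact Or.inr (Or.inl rfl)
    · exact Or.inr (Or.inr rfl)
    · exact Or.inl (cubic x).2

theorem classes_fun (L : List ((Fin 24 × Bool) × (Fin 24 × Bool)))
    (r : Fin 24 × Bool → Fin 24 × Bool → Prop) (h1 : ∀ a b, r a b → (a, b) ∈ L ∨ (b, a) ∈ L)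
    (h2 : ∀ a b, (a, b) ∈ L → r a b) :
    classes r + mergesL (L.map (Prod.map nu nu)) (List.range 48) = 48 := by
  have := card_quot_of_list nu nu_inj r L h1 h2
  rw [merges_id _ 48] at this
  · simpa [classes] using this
  · intro p hp
    obtain ⟨q, -, rfl⟩ := List.mem_map.1 hp
    exact ⟨nu_lt _, nu_lt _⟩

theorem classes_map (f : Fin 24 × Bool → Fin 24 × Bool) :
    classes (fun x y => y = f x) +
      mergesL ((darts.map (fun x => (x, f x))).map (Prod.map nu nu)) (List.range 48) = 48 := by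
  apply classes_fun
  · rintro a b rfl
    exact Or.inl (List.mem_map.2 ⟨a, mem_darts a, rfl⟩)
  · intro a b h
    obtain ⟨x, -, hx⟩ := List.mem_map.1 h
    obtain ⟨rfl, rfl⟩ := Prod.mk.inj hx
    rfl

theorem plane : IsPlaneMap sig := by
  have h1 := classes_map sig
  have h2 := classes_map (fun x => sig (opp x))
  have e1 : mergesL ((darts.map (fun x => (x, sig x))).map (Prod.map nu nu)) (List.range 48)
      = 32 := by decide +kernel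
  have e2 : mergesL ((darts.map (fun x => (x, sig (opp x)))).map (Prod.map nu nu))
      (List.range 48) = 38 := by decide +kernel
  unfold IsPlaneMap
  omega

theorem conn : IsConnectedMap sig := by
  have h1 := classes_fun (darts.map (fun x => (x, sig x)) ++ darts.map (fun x => (x, opp x)))
    (fun x y => y = sig x ∨ y = opp x) (by
      rintro a b (rfl | rfl)
      · exact Or.inl (List.mem_append_left _ (List.mem_map.2 ⟨a, mem_darts a, rfl⟩))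
      · exact Or.inl (List.mem_append_right _ (List.mem_map.2 ⟨a, mem_darts a, rfl⟩))) (by
      intro a b h
      rcases List.mem_append.1 h with h | h
      · obtain ⟨x, -, hx⟩ := List.mem_map.1 h
        obtain ⟨rfl, rfl⟩ := Prod.mk.inj hx
        exact Or.inl rfl
      · obtain ⟨x, -, hx⟩ := List.mem_map.1 h
        obtain ⟨rfl, rfl⟩ := Prod.mk.inj hx
        exact Or.inr rfl)
  have e1 : mergesL ((darts.map (fun x => (x, sig x)) ++ darts.map (fun x => (x, opp x))).map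
      (Prod.map nu nu)) (List.range 48) = 47 := by decide +kernel
  unfold IsConnectedMap
  omega

theorem loopless : Loopless sig := by
  intro x h
  have : ∀ x, ¬ (opp x = x ∨ opp x = sig x ∨ opp x = sig (sig x)) := by decide +kernel
  exact this x (sameCycle h)

set_option synthInstance.maxSize 100000 in
set_option maxRecDepth 100000 in
theorem key : ∀ a0 : Fin 3, ∀ a1 : Fin 3, a1 ≠ a0 → ∀ a2 : Fin 3, a2 ≠ a0 → a2 ≠ a1 → ∀ a3 : Fin 3, a3 ≠ a1 → ∀ a4 : Fin 3, a4 ≠ a2 → a4 ≠ a3 → ∀ a5 : Fin 3, a5 ≠ a1 → a5 ≠ a3 → ∀ a6 : Fin 3, a6 ≠ a0 → a6 ≠ a5 → ∀ a7 : Fin 3, a7 ≠ a3 → a7 ≠ a4 → ∀ a8 : Fin 3, a8 ≠ a5 → a8 ≠ a6 → ∀ a9 : Fin 3, a9 ≠ a7 → a9 ≠ a8 → ∀ a10 : Fin 3, a10 ≠ a8 → a10 ≠ a9 → ∀ a11 : Fin 3, a11 ≠ a0 → a11 ≠ a6 → ∀ a12 : Fin 3, a12 ≠ a7 → a12 ≠ a9 → ∀ a13 : Fin 3, a13 ≠ a2 → a13 ≠ a4 → ∀ a14 : Fin 3, a14 ≠ a12 → a14 ≠ a13 → ∀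 a15 : Fin 3, a15 ≠ a12 → a15 ≠ a14 → ∀ a16 : Fin 3, a16 ≠ a10 → a16 ≠ a15 → ∀ a17 : Fin 3, a17 ≠ a10 → a17 ≠ a16 → ∀ a18 : Fin 3, a18 ≠ a15 → a18 ≠ a16 → ∀ a19 : Fin 3, a19 ≠ a17 → a19 ≠ a18 → ∀ a20 : Fin 3, a20 ≠ a11 → a20 ≠ a17 → a20 ≠ a19 → ∀ a21 : Fin 3, a21 ≠ a18 → a21 ≠ a19 → ∀ a22 : Fin 3, a22 ≠ a13 → a22 ≠ a14 → a22 ≠ a21 → ∀ a23 : Fin 3, a23 ≠ a11 → a23 ≠ a20 → a23 ≠ a21 → a23 ≠ a22 → [a0, a1, a2, a3, a4, a5, a6, a7, a8, a9, a10, a11, a12, a13, a14, a15, a16, a17, a18, a19, a20, a21, a22, a23] ∈ colL := by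
  decide +kernel

theorem colourings : edgeColourings sig = 78 := by
  have h1 : ∀ c : Fin 24 → Fin 3,
      (∀ x y, sig.SameCycle x y → x.1 ≠ y.1 → c x.1 ≠ c y.1) ↔ ∀ x, c x.1 ≠ c (sig x).1 := by
    intro c
    constructor
    · intro h x
      have : ∀ x, x.1 ≠ (sig x).1 := by decide +kernel
      exact h x (sig x) ⟨1, by simp⟩ (this x)
    · intro h x y hxy hne
      rcases sameCycle hxy with rfl | rfl | rfl
      · exact absurd rfl hne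
      · exact h x
      · have := h (sig (sig x))
        rw [(cubic x).2] at this
        exact this.symm
  have h2 : List.ofFn '' {c : Fin 24 → Fin 3 | ∀ x, c x.1 ≠ c (sig x).1} = colL.toFinset := by
    ext l
    simp only [Set.mem_image, Set.mem_ofPred_eq, List.coe_toFinset]
    constructor
    · rintro ⟨c, h, rfl⟩
      have h' : ∀ (x : Fin 24 × Bool) (y : Fin 24), (sig x).1 = y → c x.1 ≠ c y :=
        fun x y e => e ▸ h x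
      have e : List.ofFn c = [c 0, c 1, c 2, c 3, c 4, c 5, c 6, c 7, c 8, c 9, c 10, c 11, c 12, c 13, c 14, c 15, c 16, c 17, c 18, c 19, c 20, c 21, c 22, c 23] := rfl
      rw [e]
      exact key (c 0) (c 1) (h' (1, true) 0 (by decide +kernel)) (c 2) (h' (0, false) 2 (by decide +kernel)).symm (h' (2, false) 1 (by decide +kernel))
        (c 3) (h' (1, false) 3 (by decide +kernel)).symm (c 4) (h' (4, true) 2 (by decide +kernel)) (h' (3, true) 4 (by decide +kernel)).symm (c 5) (h' (5, true) 1 (by decide +kernel)) (h' (3, false) 5 (by decide +kernel)).symm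
        (c 6) (h' (0, true) 6 (by decide +kernel)).symm (h' (6, false) 5 (by decide +kernel)) (c 7) (h' (7, true) 3 (by decide +kernel)) (h' (4, false) 7 (by decide +kernel)).symm (c 8) (h' (5, false) 8 (by decide +kernel)).symm (h' (8, false) 6 (by decide +kernel))
        (c 9) (h' (9, false) 7 (by decide +kernel)) (h' (8, true) 9 (by decide +kernel)).symm (c 10) (h' (10, false) 8 (by decide +kernel)) (h' (9, true) 10 (by decide +kernel)).symm (c 11) (h' (11, false) 0 (by decide +kernel)) (h' (6, true) 11 (by decide +kernel)).symm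
        (c 12) (h' (7, false) 12 (by decide +kernel)).symm (h' (12, false) 9 (by decide +kernel)) (c 13) (h' (2, true) 13 (by decide +kernel)).symm (h' (13, true) 4 (by decide +kernel)) (c 14) (h' (12, true) 14 (by decide +kernel)).symm (h' (14, true) 13 (by decide +kernel))
        (c 15) (h' (15, true) 12 (by decide +kernel)) (h' (14, false) 15 (by decide +kernel)).symm (c 16) (h' (10, true) 16 (by decide +kernel)).symm (h' (16, true) 15 (by decide +kernel)) (c 17) (h' (17, false) 10 (by decide +kernel)) (h' (16, false) 17 (by decide +kernel)).symm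
        (c 18) (h' (15, false) 18 (by decide +kernel)).symm (h' (18, false) 16 (by decide +kernel)) (c 19) (h' (17, true) 19 (by decide +kernel)).symm (h' (19, false) 18 (by decide +kernel)) (c 20) (h' (11, true) 20 (by decide +kernel)).symm (h' (20, false) 17 (by decide +kernel)) (h' (19, true) 20 (by decide +kernel)).symm
        (c 21) (h' (18, true) 21 (by decide +kernel)).symm (h' (21, true) 19 (by decide +kernel)) (c 22) (h' (13, false) 22 (by decide +kernel)).symm (h' (22, false) 14 (by decide +kernel)) (h' (21, false) 22 (by decide +kernel)).symm (c 23) (h' (23, true) 11 (by decide +kernel)) (h' (20, true) 23 (by decide +kernel)).symm (h' (23, false) 21 (by decide +kernel)) (h' (22, true) 23 (by decide +kernel)).symm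
       
    · intro hl
      have : ∀ l ∈ colL, (∀ x : Fin 24 × Bool, l.getD x.1.val 0 ≠ l.getD (sig x).1.val 0) ∧
          List.ofFn (fun i : Fin 24 => l.getD i.val 0) = l := by decide +kernel
      exact ⟨fun i => l.getD i.val 0, (this l hl).1, (this l hl).2⟩
  have h3 := congrArg Set.ncard h2
  rw [Set.ncard_image_of_injective _ List.ofFn_injective, Set.ncard_coe_finset,
    List.toFinset_card_of_nodup (by decide +kernel)] at h3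
  unfold edgeColourings
  simp only [h1]
  exact h3

def quad (e : Fin 24) : Quad :=
  (nu (sig.symm (e, false)), nu (e, true), nu (sig.symm (e, true)), nu (e, false))

theorem curves_eq (X : Finset (Fin 24)) : curves sig X +
    merges ((List.finRange 24).flatMap (fun e => prs (quad e) (e ∈ X))) id = 48 := by
  have h := card_quot_of_list nu nu_inj (fun x y : Fin 24 × Bool => ∃ d : Fin 24 × Bool,
    (d.1 ∉ X ∧ x = sig.symm d ∧ y = opp d) ∨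
    (d.1 ∈ X ∧ ((x = sig.symm d ∧ y = sig.symm (opp d)) ∨ (x = d ∧ y = opp d))))
    ((List.finRange 24).flatMap (fun e => if e ∈ X then
      [(sig.symm (e, false), sig.symm (e, true)), ((e, false), (e, true))] else
      [(sig.symm (e, false), (e, true)), (sig.symm (e, true), (e, false))])) ?_ ?_
  · have e : ((List.finRange 24).flatMap (fun e => if e ∈ X then
        [(sig.symm (e, false), sig.symm (e, true)), ((e, false), (e, true))] else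
        [(sig.symm (e, false), (e, true)), (sig.symm (e, true), (e, false))])).map
        (Prod.map nu nu) = (List.finRange 24).flatMap (fun e => prs (quad e) (e ∈ X)) := by
      rw [List.map_flatMap]
      congr 1
      funext e
      unfold prs quad
      split_ifs <;> rfl
    rw [e] at h
    exact h
  · rintro a b ⟨⟨e, t⟩, h⟩
    simp only [List.mem_flatMap, List.mem_finRange, true_and]
    rcases h with ⟨h, rfl, rfl⟩ | ⟨h, ⟨rfl, rfl⟩ | ⟨rfl, rfl⟩⟩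
    · refine Or.inl ⟨e, ?_⟩
      rw [if_neg h]
      cases t <;> simp [opp]
    · cases t
      · exact Or.inl ⟨e, by rw [if_pos h]; simp [opp]⟩
      · exact Or.inr ⟨e, by rw [if_pos h]; simp [opp]⟩
    · cases t
      · exact Or.inl ⟨e, by rw [if_pos h]; simp [opp]⟩
      · exact Or.inr ⟨e, by rw [if_pos h]; simp [opp]⟩
  · intro a b h
    simp only [List.mem_flatMap, List.mem_finRange, true_and] at h
    obtain ⟨e, h⟩ := h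
    split_ifs at h with he
    · simp only [List.mem_cons, Prod.mk.injEq, List.not_mem_nil, or_false] at h
      rcases h with ⟨rfl, rfl⟩ | ⟨rfl, rfl⟩
      · exact ⟨(e, false), Or.inr ⟨he, Or.inl ⟨rfl, rfl⟩⟩⟩
      · exact ⟨(e, false), Or.inr ⟨he, Or.inr ⟨rfl, rfl⟩⟩⟩
    · simp only [List.mem_cons, Prod.mk.injEq, List.not_mem_nil, or_false] at h
      rcases h with ⟨rfl, rfl⟩ | ⟨rfl, rfl⟩
      · exact ⟨(e, false), Or.inl ⟨he, rfl, rfl⟩⟩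
      · exact ⟨(e, true), Or.inl ⟨he, rfl, rfl⟩⟩

def s0 : ℕ := 370893620502133650990156577101181578910897003366124777934939121089380728434643182559296

def qs : List (Quad × ℕ) := (List.finRange 24).map (fun e => (quad e, deadL.getD e.val 0))

theorem penrose_val : penrose sig (-1) = 436986 := by
  have h1 := sum_eq_W quad (List.finRange 24) (List.nodup_finRange 24) id
  have h2 : (List.finRange 24).map quad = qs.map Prod.fst := by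
    unfold qs
    rw [List.map_map]
    rfl
  rw [h2, W_id 48 s0 (by decide +kernel) qs (by decide +kernel) (by decide +kernel), List.toFinset_finRange,
    Finset.powerset_univ] at h1
  have h4 : qs = [((0, 9, 19, 2), 0), ((6, 0, 1, 3), 1), ((2, 23, 4, 1), 3), ((3, 5, 11, 7), 4), ((5, 4, 22, 10), 6), ((8, 6, 7, 13), 8), ((12, 18, 9, 8), 10), ((15, 11, 10, 21), 12), ((13, 14, 17, 12), 14), ((20, 16, 14, 15), 16), ((16, 29, 31, 17), 18), ((18, 38, 47, 19), 20), ((21, 24, 27, 20), 22), ((25, 22, 23, 41), 24), ((24, 25, 43, 26), 26), ((28, 27, 26, 33), 28), ((29, 28, 32, 30), 30), ((30, 35, 36, 31), 32), ((33, 40, 34, 32), 34), ((39, 37, 35, 34), 36), ((37, 44, 38, 36), 39), ((46, 39, 40, 42), 41), ((41, 45, 42, 43), 44), ((45, 47, 44, 46), 48)] := by decide +kernel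
  have h3 : dp 48 qs s0 = 436986 := by rw [h4]; decide +kernel
  rw [← h3, ← h1]
  unfold penrose
  refine Finset.sum_congr rfl fun X _ => ?_
  refine congrArg (HMul.hMul _) ?_
  have := curves_eq X
  generalize merges ((List.finRange 24).flatMap (fun e => prs (quad e) (e ∈ X))) id = z at *
  rcases Nat.even_or_odd (curves sig X) with h | h
  · rw [h.neg_one_pow, Even.neg_one_pow]
    rw [Nat.even_iff] at *
    omega
  · rw [h.neg_one_pow, Odd.neg_one_pow]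
    rw [Nat.odd_iff] at *
    omega

theorem result : ∃ (m : ℕ) (σ : Equiv.Perm (Fin m × Bool)), IsCubic σ ∧ Loopless σ ∧
    IsConnectedMap σ ∧ IsPlaneMap σ ∧ ¬ ((edgeColourings σ : ℤ) ∣ penrose σ (-1)) := by
  refine ⟨24, sig, cubic, loopless, conn, plane, ?_⟩
  rw [colourings, penrose_val]
  decide

end Pool.Agent.Results.MP_daa8b9_co.NotDivisible
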